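import Pool.Agent.Lib.helper6.SmDf

namespace Pool.Agent.Results.MP_ee2194_co.Factor

open Pool.Agent.H6SmDf

theorem result (β : ℝ) (hβ : β < 1) (N : ℕ) : ∃ (V : Type) (_ : Fintype V) (G : SimpleGraph V),
    G ≠ ⊥ ∧ G.IsBipartite ∧ N ≤ sm G ∧ (1 + β) * (⌈(sm G : ℚ) / 2⌉ : ℤ) ≤ (df G : ℝ) := by
  obtain ⟨r, hr⟩ := exists_nat_ge (1 / (1 - β))
  obtain ⟨V, iV, G, h0, hb, hs, hd⟩ := main (2 * (N + r) + 1)
  refine ⟨V, iV, G, h0, hb, by omega, ?_⟩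
  have : ⌈(sm G : ℚ) / 2⌉ = ((N + r + 1 : ℕ) : ℤ) := by
    rw [hs, show ((2 * (N + r) + 1 + 1 : ℕ) : ℚ) / 2 = (((N + r + 1 : ℕ) : ℤ) : ℚ) by
      push_cast; ring, Int.ceil_intCast]
  rw [this]
  have h1 : ((2 * (N + r) + 1 : ℕ) : ℝ) ≤ df G := by exact_mod_cast hd
  push_cast at h1 ⊢
  rw [div_le_iff₀ (by linarith)] at hr
  have hN : (0 : ℝ) ≤ N := Nat.cast_nonneg _
  nlinarith

end Pool.Agent.Results.MP_ee2194_co.Factor
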